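import Mathlib
import Pool.Agent.Q114.ThetaSat

/-!
# MP_50682e_co: the saturation numbers of the cycle families `C_[4,r]`

The conjectured value `⌈5n/4 - 3/2⌉` (for all large `n`) is refuted for every odd `r ≥ 9`.

Two vertices joined by `m ≥ 2` internally disjoint paths with `b + 1` edges each form a graph with
`2 + m b` vertices and `m (b + 1)` edges, all of whose cycles have length `2 (b + 1)`, and any two
vertices lie on a common cycle.  If the two vertices are not adjacent they cut this cycle into two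
paths with at least two edges; the longer one has between `3` and `2 b` edges.  So the graph is
saturated for the cycles with lengths in `[4, 2 b + 1]`.
-/

namespace Pool.Agent.Results.MP_50682e_co.ThetaGraphs

open Q114

/-- The conjecture (for every `r ≥ 5` the saturation number of `C_[4,r]` is `⌈5n/4 - 3/2⌉` for all
large `n`) is false; in fact for `r = 2 b + 1 ≥ 9` it fails for all `n = 2 + m b`, `m ≥ 2`. -/
theorem result :
    (¬ ∀ r : ℕ, 5 ≤ r → ∃ N : ℕ, ∀ n : ℕ, N ≤ n →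
      (sat n (Set.Icc 4 r) : ℤ) = ⌈(5 * n / 4 - 3 / 2 : ℚ)⌉) ∧
    (∀ b m : ℕ, 4 ≤ b → 2 ≤ m →
      sat (2 + m * b) (Set.Icc 4 (2 * b + 1)) ≤ m * (b + 1) ∧
      ((m * (b + 1) : ℕ) : ℤ) < ⌈(5 * ((2 + m * b : ℕ) : ℚ) / 4 - 3 / 2 : ℚ)⌉) := by
  have key : ∀ b m : ℕ, 4 ≤ b → 2 ≤ m →
      sat (2 + m * b) (Set.Icc 4 (2 * b + 1)) ≤ m * (b + 1) ∧
      ((m * (b + 1) : ℕ) : ℤ) < ⌈(5 * ((2 + m * b : ℕ) : ℚ) / 4 - 3 / 2 : ℚ)⌉ := by
    intro b m hb hm
    refine ⟨sat_theta hm (by omega) le_rfl (by omega), ?_⟩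
    rw [Int.lt_ceil]
    push_cast
    have h1 : (4 : ℚ) ≤ b := by exact_mod_cast hb
    have h2 : (2 : ℚ) ≤ m := by exact_mod_cast hm
    nlinarith [mul_nonneg (sub_nonneg.2 h1) (le_trans (by norm_num : (0 : ℚ) ≤ 2) h2)]
  refine ⟨?_, key⟩
  intro h
  obtain ⟨N, hN⟩ := h 9 (by norm_num)
  have h1 := hN (2 + (N + 2) * 4) (by omega)
  obtain ⟨h2, h3⟩ := key 4 (N + 2) le_rfl (by omega)
  rw [show 2 * 4 + 1 = 9 by norm_num] at h2
  have h4 : ((sat (2 + (N + 2) * 4) (Set.Icc 4 9) : ℕ) : ℤ) ≤ (((N + 2) * (4 + 1) : ℕ) : ℤ) := by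
    exact_mod_cast h2
  exact absurd (h1 ▸ h4) (not_le.2 h3)

end Pool.Agent.Results.MP_50682e_co.ThetaGraphs
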